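import Mathlib

open MeasureTheory ProbabilityTheory Set Filter Topology unitInterval

namespace Pool.Agent.Results.MP_d7d923_pr.Value

/-- RED's pure strategies `(a, A)`: the interval `[a, a + A] ⊆ [0,1]`. -/
abbrev Red := {q : ℝ × ℝ // 0 ≤ q.1 ∧ 0 ≤ q.2 ∧ q.1 + q.2 ≤ 1}

open Classical in
/-- Payoff to RED. -/
noncomputable def pay (β : ℝ) (q : Red) (p : I) : ℝ :=
  if (p : ℝ) ∈ Icc q.1.1 (q.1.1 + q.1.2) then -β * q.1.2 else q.1.2

/-- Expected payoff under independent mixed strategies. -/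
noncomputable def E (β : ℝ) (μ : ProbabilityMeasure Red) (ν : ProbabilityMeasure I) : ℝ :=
  ∫ x, pay β x.1 x.2 ∂((μ : Measure Red).prod (ν : Measure I))

/-- `M(β) = sup_{n ≥ 1} (n - 1 - β) / n²`. -/
noncomputable def M (β : ℝ) : ℝ := ⨆ n : ℕ+, ((n : ℝ) - 1 - β) / (n : ℝ) ^ 2

variable {β : ℝ}

lemma meas (β : ℝ) : Measurable fun x : Red × I => pay β x.1 x.2 := by
  refine Measurable.ite ?_ (by fun_prop) (by fun_prop)
  exact (measurableSet_le (f := fun x : Red × I => x.1.1.1) (g := fun x => (x.2 : ℝ))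
    (by fun_prop) (by fun_prop)).inter (measurableSet_le (f := fun x : Red × I => (x.2 : ℝ))
      (g := fun x => x.1.1.1 + x.1.1.2) (by fun_prop) (by fun_prop))

lemma bd (hβ : 0 ≤ β) (q : Red) (p : I) : |pay β q p| ≤ 1 + β := by
  obtain ⟨⟨a, A⟩, h1, h2, h3⟩ := q
  simp only at h1 h2 h3
  unfold pay
  rw [abs_le]
  split_ifs <;> constructor <;> simp only <;> nlinarith

lemma integ (hβ : 0 ≤ β) (μ : Measure Red) (ν : Measure I) [IsProbabilityMeasure μ]
    [IsProbabilityMeasure ν] : Integrable (fun x : Red × I => pay β x.1 x.2) (μ.prod ν) :=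
  Integrable.of_bound (meas β).aestronglyMeasurable _ (.of_forall fun x => bd hβ x.1 x.2)

lemma Ebd (hβ : 0 ≤ β) (μ ν) : |E β μ ν| ≤ 1 + β := by
  simpa [E] using norm_integral_le_of_norm_le_const (f := fun x : Red × I => pay β x.1 x.2)
    (C := 1 + β) (μ := (μ : Measure Red).prod (ν : Measure I)) (.of_forall fun x => bd hβ x.1 x.2)

lemma le_M (hβ : 0 ≤ β) (n : ℕ) (hn : 0 < n) : ((n : ℝ) - 1 - β) / (n : ℝ) ^ 2 ≤ M β := by
  refine le_ciSup (f := fun n : ℕ+ => ((n : ℝ) - 1 - β) / (n : ℝ) ^ 2) ⟨1, ?_⟩ ⟨n, hn⟩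
  rintro _ ⟨n, rfl⟩
  have : (1 : ℝ) ≤ n := by exact_mod_cast n.pos
  rw [div_le_one (by positivity)]
  nlinarith

lemma M_nonneg (hβ : 0 ≤ β) : 0 ≤ M β := by
  refine le_trans (div_nonneg ?_ (sq_nonneg _)) (le_M hβ (⌈β⌉₊ + 1) (Nat.succ_pos _))
  have := Nat.le_ceil β
  push_cast; linarith

noncomputable def term (β : ℝ) (k : ℕ) (x : ℝ) : ℝ := (k - M β * k ^ 2 / x) / (1 + β)

lemma term_le (hβ : 0 ≤ β) (k : ℕ) {x : ℝ} (h0 : 0 < x) (h1 : x ≤ 1) : term β k x ≤ 1 := by
  rw [term, div_le_one (by linarith)]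
  have h2 : M β * k ^ 2 ≤ M β * k ^ 2 / x :=
    le_div_self (mul_nonneg (M_nonneg hβ) (sq_nonneg _)) h0 h1
  rcases Nat.eq_zero_or_pos k with rfl | hk
  · simp; linarith
  · have := le_M hβ k hk
    rw [div_le_iff₀ (by positivity)] at this
    linarith

noncomputable def F (β x : ℝ) : ℝ := if x ≤ 0 then 0 else if x ≤ 1 then ⨆ k, term β k x else 1

lemma le_F (hβ : 0 ≤ β) (k : ℕ) {x : ℝ} (h0 : 0 < x) (h1 : x ≤ 1) : term β k x ≤ F β x := by
  rw [F, if_neg (not_le.2 h0), if_pos h1]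
  exact le_ciSup (f := fun k => term β k x) ⟨1, by rintro _ ⟨k, rfl⟩; exact term_le hβ k h0 h1⟩ k

lemma F_mono (hβ : 0 ≤ β) : Monotone (F β) := by
  intro x y h
  by_cases hy1 : y ≤ 1
  · by_cases hx : x ≤ 0
    · rw [F, if_pos hx]
      by_cases hy : y ≤ 0
      · rw [F, if_pos hy]
      · simpa [term] using le_F hβ 0 (not_le.1 hy) hy1
    · rw [F, if_neg hx, if_pos (h.trans hy1)]
      refine ciSup_le fun k => le_trans ?_ (le_F hβ k ((not_le.1 hx).trans_le h) hy1)
      have := M_nonneg hβ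
      have := not_le.1 hx
      unfold term; gcongr
  · have : F β y = 1 := by rw [F, if_neg (by linarith [not_le.1 hy1]), if_neg hy1]
    rw [this, F]
    split_ifs with h1 h2
    exacts [zero_le_one, ciSup_le fun k => term_le hβ k (not_le.1 h1) h2, le_rfl]

lemma F_add (hβ : 0 ≤ β) {a A : ℝ} (ha : 0 ≤ a) (hA : 0 < A) (h : a + A ≤ 1) :
    (1 - M β / A) / (1 + β) ≤ F β (a + A) - F β a := by
  rcases ha.eq_or_lt with rfl | ha
  · simpa [F, term] using le_F hβ 1 hA (by linarith)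
  rw [le_sub_comm, F, if_neg (not_le.2 ha), if_pos (by linarith)]
  refine ciSup_le fun k => le_trans ?_ (sub_le_sub_right (le_F hβ (k + 1) (by linarith) h) _)
  rw [term, term, ← sub_div]
  refine div_le_div_of_nonneg_right ?_ (by linarith)
  have h1 : ((k : ℝ) + 1) ^ 2 / (a + A) ≤ k ^ 2 / a + 1 / A := by
    rw [div_add_div _ _ ha.ne' hA.ne', div_le_div_iff₀ (by linarith) (by positivity)]
    nlinarith [sq_nonneg (k * A - a)]
  have h2 := mul_le_mul_of_nonneg_left h1 (M_nonneg hβ)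
  push_cast
  simp only [mul_add, ← mul_div_assoc, mul_one] at h2
  linarith

lemma blue (hβ : 0 ≤ β) : ∃ ν : ProbabilityMeasure I, ∀ μ, E β μ ν ≤ M β := by
  set f := (F_mono hβ).stieltjesFunction with hf
  have hle : ∀ x, F β x ≤ f x := fun x => (F_mono hβ).le_rightLim le_rfl
  have hge : ∀ x y, x < y → f x ≤ F β y := fun x y h => (F_mono hβ).rightLim_le h
  have hp : IsProbabilityMeasure f.measure := by
    refine f.isProbabilityMeasure (tendsto_const_nhds.congr' ?_) (tendsto_const_nhds.congr' ?_)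
    · filter_upwards [eventually_lt_atBot 0] with x hx
      exact le_antisymm (by simpa [F, hx.le] using hle x) (by simpa [F] using hge x 0 hx)
    · filter_upwards [eventually_gt_atTop 1] with x hx
      refine le_antisymm ?_ ?_
      · simpa [F, not_le.2 hx, show ¬ x ≤ 0 by linarith] using hle x
      · simpa [F, show ¬ x + 1 ≤ 0 by linarith, show ¬ x ≤ 0 by linarith] using
          hge x (x + 1) (by linarith)
  have hm : Measurable (projIcc (0 : ℝ) 1 zero_le_one) := continuous_projIcc.measurable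
  refine ⟨⟨f.measure.map (projIcc 0 1 zero_le_one), Measure.isProbabilityMeasure_map
    hm.aemeasurable⟩, fun μ => ?_⟩
  set ν := f.measure.map (projIcc (0 : ℝ) 1 zero_le_one) with hν
  have : IsProbabilityMeasure ν := Measure.isProbabilityMeasure_map hm.aemeasurable
  change ∫ x, pay β x.1 x.2 ∂((μ : Measure Red).prod ν) ≤ _
  rw [integral_prod _ (integ hβ _ _)]
  refine (integral_mono (integ hβ _ _).integral_prod_left (integrable_const (M β))
    fun q => ?_).trans (by simp)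
  obtain ⟨⟨a, A⟩, h1, h2, h3⟩ := q
  simp only at h1 h2 h3
  set C : Set I := {p | (p : ℝ) ∈ Icc a (a + A)} with hC
  have hCm : MeasurableSet C := measurableSet_Icc.preimage measurable_subtype_coe
  have h4 : ∫ p, pay β ⟨(a, A), h1, h2, h3⟩ p ∂ν = A - (1 + β) * A * ν.real C := by
    have : ∀ p, pay β ⟨(a, A), h1, h2, h3⟩ p = A - C.indicator (fun _ => (1 + β) * A) p := by
      intro p
      simp only [pay, indicator, hC, mem_ofPred_eq]
      split_ifs <;> ring
    simp only [this]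
    rw [integral_sub (integrable_const _) ((integrable_const _).indicator hCm),
      integral_indicator_const _ hCm]
    simp [mul_comm]
  beta_reduce
  rw [h4]
  rcases h2.eq_or_lt with rfl | hA
  · simpa using M_nonneg hβ
  have h5 : (1 - M β / A) / (1 + β) ≤ ν.real C := by
    refine (F_add hβ h1 hA h3).trans ?_
    rw [hν, map_measureReal_apply hm hCm]
    refine le_trans ?_ (measureReal_mono (s₁ := Icc a (a + A)) fun x hx => ?_)
    · rw [Measure.real, f.measure_Icc]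
      refine le_trans (sub_le_sub (hle _) ?_) (Real.le_coe_toNNReal _)
      exact le_of_tendsto (f.mono.tendsto_leftLim a) (eventually_nhdsWithin_of_forall
        fun x hx => hge x a hx)
    · simpa [hC, projIcc_of_mem zero_le_one ⟨h1.trans hx.1, hx.2.trans h3⟩] using hx
  rw [div_le_iff₀ (by linarith), sub_le_comm, le_div_iff₀ hA] at h5
  linarith

lemma red (hβ : 0 ≤ β) (n : ℕ+) {θ : ℝ} (h0 : 0 ≤ θ) (h1 : θ < 1) :
    ∃ μ : ProbabilityMeasure Red, ∀ ν, θ * (((n : ℝ) - 1 - β) / (n : ℝ) ^ 2) ≤ E β μ ν := by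
  have hn : (0 : ℝ) < n := by exact_mod_cast n.pos
  set q : Fin n → Red := fun k => ⟨(k / n, θ / n), by positivity, by positivity, by
    have : ((k : ℕ) : ℝ) + 1 ≤ n := by exact_mod_cast k.2
    rw [← add_div, div_le_one hn]; linarith⟩ with hq
  have hm : Measurable q := measurable_from_top
  have : IsProbabilityMeasure (uniformOn (univ : Set (Fin n))) :=
    isProbabilityMeasure_uniformOn finite_univ univ_nonempty
  refine ⟨⟨(uniformOn univ).map q, Measure.isProbabilityMeasure_map hm.aemeasurable⟩, fun ν => ?_⟩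
  set μ := (uniformOn univ).map q with hμ
  have : IsProbabilityMeasure μ := Measure.isProbabilityMeasure_map hm.aemeasurable
  change _ ≤ ∫ x, pay β x.1 x.2 ∂(μ.prod (ν : Measure I))
  rw [integral_prod_symm _ (integ hβ _ _)]
  refine le_trans (by simp) (integral_mono
    (integrable_const (θ * (((n : ℝ) - 1 - β) / (n : ℝ) ^ 2)))
    (integ hβ _ _).integral_prod_right fun p => ?_)
  beta_reduce
  rw [hμ, integral_map (f := fun x => pay β x p) hm.aemeasurable
    ((meas β).comp measurable_prodMk_right).aestronglyMeasurable, integral_fintype .of_finite]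
  have hu : ∀ k : Fin n, (uniformOn (univ : Set (Fin n))).real {k} = 1 / n := fun k => by
    simp [Measure.real, uniformOn_univ]
  classical
  have hc : (Finset.univ.filter fun k : Fin n =>
      (p : ℝ) ∈ Icc ((k : ℕ) / n : ℝ) ((k : ℕ) / n + θ / n)).card ≤ 1 := by
    refine Finset.card_le_one.2 fun a ha b hb => ?_
    simp only [Finset.mem_filter, Finset.mem_univ, true_and, ← add_div, mem_Icc,
      div_le_iff₀ hn, le_div_iff₀ hn] at ha hb
    have e1 : ((a : ℕ) : ℝ) < (b : ℕ) + 1 := by linarith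
    have e2 : ((b : ℕ) : ℝ) < (a : ℕ) + 1 := by linarith
    norm_cast at e1 e2
    exact Fin.ext (by omega)
  have hc' := (Nat.cast_le (α := ℝ)).2 hc
  have : ∀ k, pay β (q k) p = θ / n - (1 + β) * (θ / n) *
      if (p : ℝ) ∈ Icc ((k : ℕ) / n : ℝ) ((k : ℕ) / n + θ / n) then 1 else 0 := fun k => by
    simp only [pay, hq]
    split_ifs <;> ring
  simp only [hu, this, smul_eq_mul, ← Finset.mul_sum, Finset.sum_sub_distrib, Finset.sum_boole,
    Finset.sum_const, Finset.card_univ, Fintype.card_fin, nsmul_eq_mul]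
  have h2 := mul_le_mul_of_nonneg_left hc' (show 0 ≤ (1 + β) * (θ / n) by positivity)
  refine le_trans (le_of_eq ?_) (mul_le_mul_of_nonneg_left (sub_le_sub_left h2 _) (by positivity))
  field_simp
  push_cast; ring

theorem result (β : ℝ) (hβ : 0 ≤ β) :
    (⨆ μ, ⨅ ν, E β μ ν) = M β ∧ (⨅ ν, ⨆ μ, E β μ ν) = M β := by
  have : Nonempty (ProbabilityMeasure Red) :=
    ⟨⟨Measure.dirac ⟨(0, 0), by simp⟩, inferInstance⟩⟩
  have : Nonempty (ProbabilityMeasure I) := ⟨⟨Measure.dirac 0, inferInstance⟩⟩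
  have b1 : ∀ μ, BddBelow (range fun ν => E β μ ν) := fun μ =>
    ⟨-(1 + β), by rintro _ ⟨ν, rfl⟩; exact (abs_le.1 (Ebd hβ μ ν)).1⟩
  have b2 : ∀ ν, BddAbove (range fun μ => E β μ ν) := fun ν =>
    ⟨1 + β, by rintro _ ⟨μ, rfl⟩; exact (abs_le.1 (Ebd hβ μ ν)).2⟩
  obtain ⟨ν₀, hν⟩ := blue hβ
  have h1 : ∀ μ, (⨅ ν, E β μ ν) ≤ M β := fun μ => (ciInf_le (b1 μ) ν₀).trans (hν μ)
  have key : ∀ x : ℝ, (∀ μ (c : ℝ), (∀ ν, c ≤ E β μ ν) → c ≤ x) → M β ≤ x := fun x hx => by
    refine ciSup_le fun n => ?_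
    have ht : Tendsto (fun θ : ℝ => θ * (((n : ℝ) - 1 - β) / (n : ℝ) ^ 2)) (𝓝[<] 1) (𝓝 _) :=
      ((continuous_mul_const _).tendsto 1).mono_left nhdsWithin_le_nhds
    rw [one_mul] at ht
    refine le_of_tendsto ht ?_
    filter_upwards [Ioo_mem_nhdsLT zero_lt_one] with θ hθ
    obtain ⟨μ, hμ⟩ := red hβ n hθ.1.le hθ.2
    exact hx μ _ hμ
  have h2 : ∀ ν, M β ≤ ⨆ μ, E β μ ν := fun ν =>
    key _ fun μ c hc => (hc ν).trans (le_ciSup (b2 ν) μ)
  refine ⟨le_antisymm (ciSup_le h1) (key _ fun μ c hc => (le_ciInf hc).trans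
    (le_ciSup (f := fun μ => ⨅ ν, E β μ ν) ⟨M β, by rintro _ ⟨μ, rfl⟩; exact h1 μ⟩ μ)),
    le_antisymm ((ciInf_le ⟨M β, by rintro _ ⟨ν, rfl⟩; exact h2 ν⟩ ν₀).trans (ciSup_le hν))
      (le_ciInf h2)⟩

end Pool.Agent.Results.MP_d7d923_pr.Value
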